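import Pool.Agent.H8.DS.TarG
import Pool.Agent.H8.DS.TarK

/-!
Module FIRSTK: the first return in terms of the relevant lifts.
-/

namespace DS

namespace FIRSTKH

open Set Data

variable {C S : Type}

theorem lel_mem (X : Data C S) (k : Lift S) : X.lel k ∈ X.deck (X.comp k.1) := ⟨k.2, rfl⟩

/-- A point over which a closed lift is met lies on a slit. -/
theorem notPure (hM : T_MEET) (X : Data C S) (hX : X.Surface) (t : ℝ) (s : S) (ξ : ℝ)
    (k : Lift S) (hk : X.Meets t s ξ k) :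
    ¬ X.Pure (X.comp (X.glue s)) (fwd t (X.pt (X.glue s) ξ) (X.hgt k - X.b (X.glue s))) := by
  obtain ⟨h1, h2, h3, h4⟩ := hk
  obtain ⟨-, -, hE, hq0, -, hq1, -⟩ := hM C S X hX t s ξ k h1 h2
  intro hp
  refine hp.1 ⟨k.1, h1, X.lel k, ?_, X.La s k * ξ + (X.Lb s k * t + X.Lc s k),
    ⟨hq0.1 h3, hq1.1 h4⟩, (hE _).2 rfl⟩
  have := lel_mem X k
  rw [h1] at this
  exact this

/-- The height of the point of a lift. -/
theorem act_hgt (X : Data C S) (k : Lift S) (η : ℝ) :
    (act (X.lel k) (X.pt k.1 η)).2 = X.hgt k := by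
  simp [act, pt, hgt]

end FIRSTKH

open Set Data

theorem pf_FIRSTK (hM : T_MEET) (hSLU : T_SLU) : T_FIRSTK := by
  intro C S _ X hX hU t s K hK1 hK2 ξ hξ y'
  constructor
  · rintro ⟨-, hy', hc, g, hg, h, hh, hcl, he⟩
    simp only at hc hcl he
    obtain ⟨m, rfl⟩ := hg
    -- the lift
    have hlel : X.lel (y'.1, m) = (X.kind (X.comp y'.1)).el m := rfl
    have hhg : X.hgt (y'.1, m) = X.b (X.glue s) + h := by
      have := congrArg Prod.snd he
      rw [← hlel, FIRSTKH.act_hgt X (y'.1, m) y'.2] at this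
      rw [← this]
      simp [fwd, pt]
    have hlt : X.b (X.glue s) < X.hgt (y'.1, m) := by rw [hhg]; linarith
    obtain ⟨-, -, hE, hq0, hq0', hq1, hq1'⟩ := hM C S X hX t s ξ (y'.1, m) hc hlt
    have hsub : X.hgt (y'.1, m) - X.b (X.glue s) = h := by rw [hhg]; ring
    have hη : y'.2 = X.La s (y'.1, m) * ξ + (X.Lb s (y'.1, m) * t + X.Lc s (y'.1, m)) := by
      refine (hE _).1 ?_
      rw [hsub]; exact he
    have hm0 : X.Meets t s ξ (y'.1, m) := by
      refine ⟨hc, hlt, hq0.2 ?_, hq1.2 ?_⟩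
      · rw [← hη]; exact hy'.1.le
      · rw [← hη]; exact hy'.2.le
    obtain ⟨k, hk, hkle, hkm⟩ := hK2 ξ hξ _ hm0
    have hge : ∀ k' : Lift S, X.Meets t s ξ k' → X.hgt (y'.1, m) ≤ X.hgt k' := by
      intro k' hk'
      by_contra hcon
      push Not at hcon
      refine FIRSTKH.notPure hM X hX t s ξ k' hk' (hcl _ ?_ ?_)
      · have := hk'.2.1; linarith
      · rw [← hsub]; linarith
    have hkeq : X.hgt k = X.hgt (y'.1, m) := le_antisymm hkle (hge k hkm)
    obtain ⟨k1, k2⟩ := hK1 k hk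
    obtain ⟨-, -, hE', hr0, hr0', hr1, hr1'⟩ := hM C S X hX t s ξ k k1 k2
    have hpt : fwd t (X.pt (X.glue s) ξ) h = act (X.lel k)
        (X.pt k.1 (X.La s k * ξ + (X.Lb s k * t + X.Lc s k))) := by
      have := (hE' _).2 rfl
      rw [hkeq, hsub] at this
      exact this
    have hck : X.comp k.1 = X.comp y'.1 := k1.trans hc.symm
    have hslu := hSLU C S X hX k.1 y'.1 hck (X.lel k) (FIRSTKH.lel_mem X k)
      ((X.kind (X.comp y'.1)).el m) (by rw [hck]; exact ⟨m, rfl⟩)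
      (X.La s k * ξ + (X.Lb s k * t + X.Lc s k)) ⟨hr0.1 hkm.2.2.1, hr1.1 hkm.2.2.2⟩
      y'.2 ⟨hy'.1.le, hy'.2.le⟩ (hpt.symm.trans he)
    refine ⟨k, hk, hslu.1, hslu.2.2.symm, ?_, ?_, ?_⟩
    · rw [hr0', hslu.2.2]; exact hy'.1
    · rw [hr1', hslu.2.2]; exact hy'.2
    · intro k' _ hk'
      rw [hkeq]; exact hge k' hk'
  · rintro ⟨k, hk, hk1, hy, hq0, hq1, hmin⟩
    obtain ⟨k1, k2⟩ := hK1 k hk
    obtain ⟨-, -, hE, -, hr0, -, hr1⟩ := hM C S X hX t s ξ k k1 k2
    have hy0 : 0 < y'.2 := by rw [hy]; exact hr0.1 hq0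
    have hy1 : y'.2 < 1 := by rw [hy]; exact hr1.1 hq1
    refine ⟨hξ, ⟨hy0, hy1⟩, by rw [← hk1]; exact k1, X.lel k, ?_,
      X.hgt k - X.b (X.glue s), by linarith, ?_, ?_⟩
    · rw [← hk1]; exact FIRSTKH.lel_mem X k
    · intro κ hκ0 hκ1
      simp only
      refine ⟨?_, ?_⟩
      · rintro ⟨s'', hs'', g'', hg'', ξ'', hξ'', he⟩
        rw [← hs''] at hg''
        obtain ⟨m, rfl⟩ := hg''
        have hlel : X.lel (s'', m) = (X.kind (X.comp s'')).el m := rfl
        have hhg : X.hgt (s'', m) = X.b (X.glue s) + κ := by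
          have := congrArg Prod.snd he
          rw [← hlel, FIRSTKH.act_hgt X (s'', m) ξ''] at this
          rw [← this]
          simp [fwd, pt]
        have hlt : X.b (X.glue s) < X.hgt (s'', m) := by rw [hhg]; linarith
        have hsub : X.hgt (s'', m) - X.b (X.glue s) = κ := by rw [hhg]; ring
        obtain ⟨-, -, hE', hp0, -, hp1, -⟩ := hM C S X hX t s ξ (s'', m) hs'' hlt
        have hη : ξ'' = X.La s (s'', m) * ξ + (X.Lb s (s'', m) * t + X.Lc s (s'', m)) := by
          refine (hE' _).1 ?_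
          rw [hsub]; exact he
        have hm0 : X.Meets t s ξ (s'', m) := by
          refine ⟨hs'', hlt, hp0.2 ?_, hp1.2 ?_⟩
          · rw [← hη]; exact hξ''.1
          · rw [← hη]; exact hξ''.2
        obtain ⟨k', hk', hkle, hkm⟩ := hK2 ξ hξ _ hm0
        have := hmin k' hk' hkm
        linarith
      · intro hH h0
        have h1 := congrArg Prod.snd h0
        simp only [fwd, pt, Prod.snd_zero] at h1
        have h2 := hU (X.glue s) hH
        linarith
    · simp only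
      rw [← hk1]
      exact (hE _).2 hy

end DS
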