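import Pool.Agent.H8.DS.TarA
import Pool.Agent.H8.DS.TarK

/-!
Module K1: entries into and exits from the flat part happen in bounded time.
-/

namespace DS

namespace K1H

open Set

theorem nonempty_of_go {S B : Type} (Y : Sys S B) (v : List B) (y y' : S × ℝ)
    (h : Y.Go v y y') : ∀ b ∈ v, (Y.D b).Nonempty := by
  induction v generalizing y with
  | nil => intro b hb; simp at hb
  | cons a v ih =>
    intro b hb
    obtain ⟨_, h2, h3⟩ := h
    rcases List.mem_cons.1 hb with rfl | hb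
    · exact ⟨_, h2⟩
    · exact ih _ h3 b hb

end K1H

open Set Data

theorem pf_K1 (hX1 : T_X1) (hREVGO : T_REVGO) (hFCGO : T_FCGO) : T_K1 := by
  intro C S B Q _ _ X w hX hw M t ht
  have hmw : ∀ s, 0 < X.len s / w s := fun s => div_pos (hX.pos s) (hw.pos s)
  have key1 := hX1 S B (M.toFam.sys t) (fun s => X.len s / w s)
    (fun b => ¬ X.Hopf (X.comp (X.glue (M.src b)))) (fun s => X.Hopf (X.comp (X.glue s)))
    hmw (fun b hb => M.slope_flat b hb) (fun b hb => hb) (by
      intro b x hx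
      obtain ⟨ε, hε, h⟩ := M.stab b t x hx
      refine ⟨ε, hε, fun x' hx' => ?_⟩
      obtain ⟨b', e1, e2, e3, e4, e5, e6⟩ := h x' hx'
      refine ⟨b', e1, e2, ?_, e6, ?_⟩
      · intro hb
        rw [e1]; exact hb
      · show M.al b' * x' + (M.be b' * t + M.ga b') = M.al b * x' + (M.be b * t + M.ga b)
        rw [e3, e4, e5])
  obtain ⟨N₁, hN₁⟩ := key1
  have key2 := hX1 S B (M.toFam.sys t).rev (fun s => X.len s / w s)
    (fun b => ¬ X.Hopf (X.comp (X.glue (M.src b))) ∧ ((M.toFam.sys t).D b).Nonempty)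
    (fun s => X.Hopf (X.comp s))
    hmw (by
      rintro b ⟨hb, -⟩
      show (M.al b)⁻¹ * (X.len (M.src b) / w (M.src b)) = X.len (M.tgt b) / w (M.tgt b)
      rw [← M.slope_flat b hb]
      rw [← mul_assoc, inv_mul_cancel₀ (M.al_pos b).ne', one_mul]) (by
      rintro b ⟨hb, ⟨x, hx⟩⟩
      show ¬ X.Hopf (X.comp (M.tgt b))
      have hh : X.Hit t (M.src b, x) (M.tgt b, M.al b * x + (M.be b * t + M.ga b)) :=
        (M.hit t ht _ _).2 ⟨b, rfl, rfl, hx, rfl⟩
      have hc : X.comp (M.tgt b) = X.comp (X.glue (M.src b)) := hh.2.2.1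
      rw [hc]; exact hb) (by
      rintro b _ ⟨z, hz, rfl⟩
      obtain ⟨ε, hε, h⟩ := M.stab b t z hz
      have ha : 0 < M.al b := M.al_pos b
      refine ⟨ε * M.al b, mul_pos hε ha, fun x' hx' => ?_⟩
      have hz' : |(x' - (M.be b * t + M.ga b)) / M.al b - z| < ε := by
        have e : (x' - (M.be b * t + M.ga b)) / M.al b - z =
            (x' - (M.al b * z + (M.be b * t + M.ga b))) / M.al b := by
          field_simp; ring
        rw [e, abs_div, abs_of_pos ha, div_lt_iff₀ ha]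
        exact hx'
      obtain ⟨b', e1, e2, e3, e4, e5, e6⟩ := h _ hz'
      have hval : M.al b' * ((x' - (M.be b * t + M.ga b)) / M.al b) +
          (M.be b' * t + M.ga b') = x' := by
        rw [e3, e4, e5]; field_simp; ring
      refine ⟨b', e2, e1, ?_, ⟨_, e6, hval⟩, ?_⟩
      · rintro ⟨hb, -⟩
        exact ⟨by rw [e1]; exact hb, ⟨_, e6⟩⟩
      · show (M.al b')⁻¹ * x' + -(M.be b' * t + M.ga b') / M.al b' =
          (M.al b)⁻¹ * x' + -(M.be b * t + M.ga b) / M.al b
        rw [e3, e4, e5])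
  obtain ⟨N₂, hN₂⟩ := key2
  refine ⟨max N₁ N₂, fun n hn y y' hFC => ?_⟩
  obtain ⟨v, hv, hfl, hgo⟩ := (hFCGO C S B Q X w M t ht n y y').1 hFC
  have hne := K1H.nonempty_of_go _ v y y' hgo
  refine ⟨?_, ?_⟩
  · exact hN₁ v (by rw [hv]; exact le_trans (le_max_left _ _) hn) hfl y y' hgo
  · have hr := hREVGO S B _ v y y' hgo
    refine hN₂ v.reverse ?_ ?_ y' y hr
    · rw [List.length_reverse, hv]; exact le_trans (le_max_right _ _) hn
    · intro b hb
      rw [List.mem_reverse] at hb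
      exact ⟨hfl b hb, hne b hb⟩

end DS
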