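import Pool.Agent.H8.DS.TarG

/-!
Module NF: normal form of a piece of a leaf.
-/

namespace DS

namespace NFH

open Set Data

variable {C S : Type}

/-- Two steps can be joined when the middle point is off the slits. -/
theorem join (hST : T_START) (hEQV : T_EQV) (X : Data C S) (hX : X.Surface) (t : ℝ)
    (A Q₀ Q : C × ℝ × ℝ) (m n : ℝ) (h1 : X.Step t A Q₀ m) (h2 : X.Step t Q₀ Q n)
    (hp : X.Pure Q₀.1 Q₀.2) : X.Step t A Q (m * n) := by
  obtain ⟨c, z, r, h, g, hs, hh, hcl, hva, hg, hQ₀, hm⟩ := h1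
  obtain ⟨c₂, z₂, r₂, h₂, g₂, hs₂, hh₂, hcl₂, hva₂, hg₂, hQ, hn⟩ := h2
  subst hQ₀
  have hst := Start.pure (X := X) c (act g (fwd t z h)) hp
  obtain ⟨e1, e2, e3⟩ := hST C S X hX _ _ _ _ _ _ _ hst hs₂
  subst e1 e2 e3
  have hgp : 0 < g.1 := deck_pos X hX c g hg
  have hE : ∀ κ, fwd t (act g (fwd t z h)) κ = act g (fwd t z (h + κ / g.1)) := by
    intro κ
    rw [act_fwd g t z (h + κ / g.1), act_fwd g t z h, fwd_add]
    congr 1
    field_simp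
  refine ⟨c, z, r, h + h₂ / g.1, gmul g₂ g, hs, by positivity, ?_, ?_,
    deck_mul X hX c g₂ g hg₂ hg, ?_, ?_⟩
  · intro κ hκ hκ'
    rcases lt_trichotomy κ h with hlt | heq | hgt
    · exact hcl κ hκ hlt
    · rw [heq]
      exact ((hEQV C S X hX c g hg (fwd t z h)).2.2.1).1 hp
    · have h3 : X.Pure c (fwd t (act g (fwd t z h)) (g.1 * (κ - h))) := by
        refine hcl₂ _ (mul_pos hgp (by linarith)) ?_
        have : κ - h < h₂ / g.1 := by linarith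
        rw [lt_div_iff₀ hgp] at this
        linarith
      rw [hE] at h3
      have h4 := ((hEQV C S X hX c g hg _).2.2.1).1 h3
      have e5 : h + g.1 * (κ - h) / g.1 = κ := by field_simp; ring
      rw [e5] at h4
      exact h4
  · rw [hE] at hva₂
    exact ((hEQV C S X hX c g hg _).2.2.2.1).1 hva₂
  · rw [hQ, hE, act_gmul]
  · rw [hm, hn]
    simp only [gmul]
    ring

/-- A step that starts at a point on a slit. -/
theorem split (hEQS : T_EQS) (X : Data C S) (hX : X.Surface) (t : ℝ)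
    (Q₀ Q : C × ℝ × ℝ) (n : ℝ) (h2 : X.Step t Q₀ Q n) (hp : ¬ X.Pure Q₀.1 Q₀.2) :
    ∃ (y₀ : S × ℝ) (γ : ℝ), y₀.2 ∈ Ioo (0 : ℝ) 1 ∧ γ ≠ 0 ∧
      (∀ A m, X.Step t A Q₀ m → X.Step t A (X.sp y₀) (m * γ)) ∧
      X.Step t (X.sp y₀) Q (n / γ) := by
  have h2' := h2
  obtain ⟨c₂, z₂, r₂, h₂, g₂, hs₂, hh₂, hcl₂, hva₂, hg₂, hQ, hn⟩ := h2
  cases hs₂ with
  | pure c z h => exact absurd h hp
  | cross s g ξ hg h0 h1 =>
    have hgi : ginv g ∈ X.deck (X.comp s) := deck_inv X hX _ g hg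
    have hgp : 0 < g.1 := deck_pos X hX _ g hg
    have hgip : 0 < (ginv g).1 := deck_pos X hX _ _ hgi
    refine ⟨(s, ξ), (ginv g).1, ⟨h0, h1⟩, hgip.ne', ?_, ?_⟩
    · intro A m hA
      have := (hEQS C S X hX t A _ m hA).2.1 (ginv g) hgi
      rw [act_ginv g hgp.ne'] at this
      exact this
    · have := (hEQS C S X hX t _ Q n h2').1 (ginv g) hgi
      rw [act_ginv g hgp.ne'] at this
      exact this

/-- A chain can be extended at its end. -/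
theorem ch_snoc (X : Data C S) (t : ℝ) (n : ℕ) (y y' y₀ : S × ℝ) (m m' : ℝ)
    (h : X.Ch t n y y' m) (hy : y₀.2 ∈ Ioo (0 : ℝ) 1)
    (hs : X.Step t (X.sp y') (X.sp y₀) m') : X.Ch t (n + 1) y y₀ (m * m') := by
  induction n generalizing y m with
  | zero =>
    obtain ⟨rfl, rfl⟩ := h
    exact ⟨y₀, m', 1, hy, hs, ⟨rfl, rfl⟩, by ring⟩
  | succ n ih =>
    obtain ⟨y₁, m₁, m₂, h1, h2, h3, rfl⟩ := h
    exact ⟨y₁, m₁, m₂ * m', h1, h2, ih y₁ m₂ h3, by ring⟩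

end NFH

open Set Data

theorem pf_NF (hST : T_START) (hEQS : T_EQS) (hEQV : T_EQV) : T_NF := by
  intro C S X hX t P Q m hR
  induction hR with
  | step h => exact Or.inl h
  | tail h h' ih =>
    rename_i Q₀ Q m₀ n
    by_cases hp : X.Pure Q₀.1 Q₀.2
    · rcases ih with h1 | ⟨y, y', k, m₁, m₂, m₃, hy, hy', h1, h2, h3, rfl⟩
      · exact Or.inl (NFH.join hST hEQV X hX t _ _ _ _ _ h1 h' hp)
      · exact Or.inr ⟨y, y', k, m₁, m₂, m₃ * n, hy, hy', h1, h2,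
          NFH.join hST hEQV X hX t _ _ _ _ _ h3 h' hp, by ring⟩
    · obtain ⟨y₀, γ, hy₀, hγ, hA, hB⟩ := NFH.split hEQS X hX t _ _ _ h' hp
      rcases ih with h1 | ⟨y, y', k, m₁, m₂, m₃, hy, hy', h1, h2, h3, rfl⟩
      · exact Or.inr ⟨y₀, y₀, 0, m₀ * γ, 1, n / γ, hy₀, hy₀, hA _ _ h1, ⟨rfl, rfl⟩, hB,
          by field_simp⟩
      · exact Or.inr ⟨y, y₀, k + 1, m₁, m₂ * (m₃ * γ), n / γ, hy, hy₀, h1,
          NFH.ch_snoc X t k y y' y₀ m₂ (m₃ * γ) h2 hy₀ (hA _ _ h3), hB, by field_simp⟩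

end DS
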